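import Pool.Agent.PK.HH
import Pool.Agent.H24.LP.Disch

/-!
# Packing (PK): static weights and the order of the residual graph, statements
-/

set_option autoImplicit false

open Finset

namespace Pool.Agent.PK

open Pool.Agent.H24.LP

/-- Static weights: `W` is packed before, `R` is the residual graph, of bounded relative degree. -/
def WtS : Prop := ∀ eps : ℝ, 0 < eps → eps < 1 → ∃ C0 Lam : ℝ, 1 ≤ C0 ∧ 1 ≤ Lam ∧
  ∀ K : ℕ, 0 < K → ∀ (V : Type) [Fintype V] [DecidableEq V] (G : SimpleGraph V) (S : Finset V),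
  S.Nonempty → ∑ v ∈ S, ((nb G S v).card : ℝ) ≤ (1 - eps) * K * S.card →
  ∃ (W R : Finset V) (w : V → ℝ), W ∪ R = S ∧ Disjoint W R ∧ R.Nonempty ∧
    (∀ v, 1 ≤ w v ∧ w v ≤ Lam) ∧ (∀ v ∈ R, ((nb G S v).card : ℝ) ≤ C0 * K) ∧
    ∀ v ∈ R, 2 * ((nb G W v).card : ℝ) + ∑ u ∈ nb G R v, hh (w u / w v) ≤ (1 - eps / 2) * K

/-- The order of the residual graph `R`: the vertex `v` is processed in the slot `t v < J`, its
potential at the beginning of the slot `s ≤ t v` is `p v s`. All vertices are awake from the slot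
`0`; the neighbours in `W` are charged with `2 / K` each. -/
structure Ordr {V : Type} [Fintype V] [DecidableEq V] (G : SimpleGraph V) (K : ℕ)
    (W R : Finset V) (eps th kap del : ℝ) (J : ℕ) (t : V → ℕ) (p : V → ℕ → ℝ) : Prop where
  lt : ∀ v ∈ R, t v < J
  ini : ∀ v ∈ R, p v 0 = 1 - 2 * (nb G W v).card / K
  ge : ∀ v ∈ R, ∀ s ≤ t v, eps ≤ p v s
  le : ∀ v ∈ R, ∀ s ≤ t v, p v s ≤ 1
  anti : ∀ v ∈ R, ∀ s < t v, p v (s + 1) ≤ p v s
  step : ∀ v ∈ R, ∀ s < t v, p v (s + 1) +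
    1 / K * (∑ u ∈ (nb G R v).filter (fun u => t u = s), (hh (p v s / p u s) + th)) + kap ≤ p v s
  few : ∀ v ∈ R, ∀ s, (((nb G R v).filter (fun u => t u = s)).card : ℝ) ≤ del * K

/-- The existence of the order. -/
def OrdS : Prop := ∀ eps : ℝ, 0 < eps → eps < 1 → ∃ C0 : ℝ, 1 ≤ C0 ∧ ∀ th : ℝ, 0 < th →
  th ≤ eps / (32 * C0) → ∃ c B : ℝ, 0 < c ∧ 0 < B ∧ ∀ del : ℝ, 0 < del → del ≤ 1 → ∃ J K0 : ℕ,
  (J : ℝ) * del ≤ B ∧ ∀ K : ℕ, K0 ≤ K →
  ∀ (V : Type) [Fintype V] [DecidableEq V] (G : SimpleGraph V) (S : Finset V),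
  S.Nonempty → ∑ v ∈ S, ((nb G S v).card : ℝ) ≤ (1 - eps) * K * S.card →
  ∃ (W R : Finset V) (t : V → ℕ) (p : V → ℕ → ℝ), W ∪ R = S ∧ Disjoint W R ∧ R.Nonempty ∧
    (∀ v ∈ R, ((nb G S v).card : ℝ) ≤ C0 * K) ∧ Ordr G K W R (eps / 4) th (c * del) del J t p

end Pool.Agent.PK
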