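import Pool.Agent.H10.PK.Weights
import Pool.Agent.H97.PK.Split

/-!
# Packing (PK): the order of the residual graph

The slots are the pairs (level, part); in the slot `s` all unprocessed vertices `v` of the part
`s % M` with `y (s / M + 1) < w v * p v` are processed.
-/

set_option autoImplicit false

open Finset

namespace Pool.Agent.PK

open Pool.Agent.H24.LP

theorem ord_hh {z t : ℝ} (hz : 0 < z) (ht : 0 ≤ t) : hh ((1 + t) * z) ≤ hh z + t := by
  rcases le_total z 1 with h1 | h1
  · rw [hh_le_one h1]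
    have hzt : t * z ≤ t := by nlinarith
    rcases le_total ((1 + t) * z) 1 with h2 | h2
    · rw [hh_le_one h2]
      linarith
    · rw [hh_one_le h2]
      have h3 : 0 < (1 + t) * z := by linarith
      have h4 : 2 ≤ (1 + t) * z + 1 / ((1 + t) * z) := by
        have h5 : (1 + t) * z + 1 / ((1 + t) * z) - 2 = ((1 + t) * z - 1) ^ 2 / ((1 + t) * z) := by
          field_simp
          ring
        have h6 : 0 ≤ ((1 + t) * z - 1) ^ 2 / ((1 + t) * z) := by positivity
        linarith
      linarith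
  · have h2 : 1 ≤ (1 + t) * z := by nlinarith
    rw [hh_one_le h1, hh_one_le h2]
    have h3 : 1 / z - 1 / ((1 + t) * z) = t * (1 / ((1 + t) * z)) := by
      field_simp
      ring
    have h4 : 1 / ((1 + t) * z) ≤ 1 := by
      rw [div_le_one (by linarith)]
      exact h2
    have h5 : t * (1 / ((1 + t) * z)) ≤ t * 1 := mul_le_mul_of_nonneg_left h4 ht
    linarith

/-- The recursion of the order. -/
structure OrdRec {V : Type} [DecidableEq V] (G : SimpleGraph V) (K M L : ℕ) (W R : Finset V)
    (eps th t' C0 Lam kap : ℝ) (w : V → ℝ) (part : V → ℕ) (y : ℕ → ℝ) (p : ℕ → V → ℝ)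
    (D Q : ℕ → Finset V) : Prop where
  hK : 0 < K
  hM : 0 < M
  he : 0 < eps
  hth : 0 ≤ th
  ht : 0 < t'
  hk : 0 ≤ kap
  hkJ : (L * M : ℕ) * kap ≤ eps / 16
  hsm : C0 * (t' + th) ≤ eps / 16
  hw : ∀ v, 1 ≤ w v ∧ w v ≤ Lam
  hdeg : ∀ v ∈ R, ((nb G R v).card : ℝ) ≤ C0 * K
  hst : ∀ v ∈ R, 2 * ((nb G W v).card : ℝ) + ∑ u ∈ nb G R v, hh (w u / w v) ≤ (1 - eps / 2) * K
  hpt : ∀ v, part v < M
  hy0 : y 0 = Lam
  hy : ∀ l, y l = (1 + t') * y (l + 1)
  hyp : ∀ l, 0 < y l
  hyL : y L < eps / 4
  hp0 : ∀ v, p 0 v = 1 - 2 * (nb G W v).card / K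
  hps : ∀ s v, p (s + 1) v = p s v -
    1 / K * (∑ u ∈ (nb G R v).filter (fun u => u ∈ Q s), (hh (p s v / p s u) + th)) - kap
  hD0 : D 0 = ∅
  hDs : ∀ s, D (s + 1) = D s ∪ Q s
  hQ : ∀ s v, v ∈ Q s ↔ v ∈ R ∧ v ∉ D s ∧ part v = s % M ∧ y (s / M + 1) < w v * p s v

namespace OrdRec

variable {V : Type} [DecidableEq V] {G : SimpleGraph V} {K M L : ℕ} {W R : Finset V}
  {eps th t' C0 Lam kap : ℝ} {w : V → ℝ} {part : V → ℕ} {y : ℕ → ℝ} {p : ℕ → V → ℝ}
  {D Q : ℕ → Finset V}

/-- the invariant for one vertex -/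
structure Inv (G : SimpleGraph V) (K M : ℕ) (W R : Finset V)
    (eps th t' kap : ℝ) (w : V → ℝ) (part : V → ℕ) (y : ℕ → ℝ) (p : ℕ → V → ℝ)
    (D : ℕ → Finset V) (s : ℕ) (v : V) : Prop where
  lo : 1 - 2 * (nb G W v).card / K - 1 / K * (∑ u ∈ (nb G R v).filter (fun u => u ∈ D s),
    (hh (w u / w v) + (t' + th))) - s * kap ≤ p s v
  up : w v * p s v ≤ y (s / M)
  up' : part v < s % M → w v * p s v ≤ y (s / M + 1)
  le : p s v ≤ 1

theorem ge_of_inv (h : OrdRec G K M L W R eps th t' C0 Lam kap w part y p D Q) {s : ℕ}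
    (hs : s ≤ L * M) {v : V} (hv : v ∈ R)
    (hI : Inv G K M W R eps th t' kap w part y p D s v) : eps / 4 ≤ p s v := by
  have hKr : (0 : ℝ) < K := by exact_mod_cast h.hK
  have hwp : ∀ v, 0 < w v := fun v => lt_of_lt_of_le one_pos (h.hw v).1
  have a1 : ∑ u ∈ (nb G R v).filter (fun u => u ∈ D s), (hh (w u / w v) + (t' + th)) ≤
      ∑ u ∈ nb G R v, (hh (w u / w v) + (t' + th)) := by
    refine Finset.sum_le_sum_of_subset_of_nonneg (Finset.filter_subset _ _) fun u _ _ => ?_
    have h1 : 0 ≤ w u / w v := (div_pos (hwp u) (hwp v)).le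
    have h2 := wt_hh_nonneg h1
    have h3 := h.ht
    have h4 := h.hth
    linarith
  have a2 : ∑ u ∈ nb G R v, (hh (w u / w v) + (t' + th)) =
      ∑ u ∈ nb G R v, hh (w u / w v) + ((nb G R v).card : ℝ) * (t' + th) := by
    rw [Finset.sum_add_distrib, Finset.sum_const, nsmul_eq_mul]
  have a3 : ((nb G R v).card : ℝ) * (t' + th) ≤ C0 * K * (t' + th) :=
    mul_le_mul_of_nonneg_right (h.hdeg v hv) (by linarith [h.ht, h.hth])
  have a4 : C0 * K * (t' + th) ≤ eps / 16 * K := by
    have := mul_le_mul_of_nonneg_right h.hsm hKr.le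
    linarith
  have a5 := h.hst v hv
  have a6 : (s : ℝ) * kap ≤ eps / 16 := by
    have h1 : (s : ℝ) ≤ ((L * M : ℕ) : ℝ) := by exact_mod_cast hs
    have h2 := mul_le_mul_of_nonneg_right h1 h.hk
    exact h2.trans h.hkJ
  have a7 : 2 * ((nb G W v).card : ℝ) + ∑ u ∈ (nb G R v).filter (fun u => u ∈ D s),
      (hh (w u / w v) + (t' + th)) ≤ (1 - eps / 2 + eps / 16) * K := by linarith
  have a8 : 2 * ((nb G W v).card : ℝ) / K + 1 / K * (∑ u ∈ (nb G R v).filter (fun u => u ∈ D s),
      (hh (w u / w v) + (t' + th))) ≤ 1 - eps / 2 + eps / 16 := by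
    have h1 : 2 * ((nb G W v).card : ℝ) / K + 1 / K * (∑ u ∈ (nb G R v).filter (fun u => u ∈ D s),
      (hh (w u / w v) + (t' + th))) = (2 * ((nb G W v).card : ℝ) +
      ∑ u ∈ (nb G R v).filter (fun u => u ∈ D s), (hh (w u / w v) + (t' + th))) / K := by
      ring
    rw [h1, div_le_iff₀ hKr]
    exact a7
  have a9 := hI.lo
  have a10 := h.he
  linarith

theorem pos_of_mem_Q (h : OrdRec G K M L W R eps th t' C0 Lam kap w part y p D Q) {s : ℕ}
    {u : V} (hu : u ∈ Q s) : 0 < p s u := by
  have h1 := ((h.hQ s u).1 hu).2.2.2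
  have h2 := h.hyp (s / M + 1)
  have h3 : 0 < w u := lt_of_lt_of_le one_pos (h.hw u).1
  by_contra! h4
  have : w u * p s u ≤ 0 := mul_nonpos_of_nonneg_of_nonpos h3.le h4
  linarith

theorem cost_le (h : OrdRec G K M L W R eps th t' C0 Lam kap w part y p D Q) {s : ℕ} {v u : V}
    (hv : w v * p s v ≤ y (s / M)) (hu : u ∈ Q s) :
    hh (p s v / p s u) ≤ hh (w u / w v) + t' := by
  have hwp : ∀ v, 0 < w v := fun v => lt_of_lt_of_le one_pos (h.hw v).1
  have h1 := ((h.hQ s u).1 hu).2.2.2
  have h2 := h.hyp (s / M + 1)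
  have h3 := h.pos_of_mem_Q hu
  have h4 := h.hy (s / M)
  have h5 : p s v / p s u ≤ (1 + t') * (w u / w v) := by
    rw [div_le_iff₀ h3]
    have e1 : w v * p s v ≤ (1 + t') * (w u * p s u) := by
      rw [h4] at hv
      have := mul_le_mul_of_nonneg_left h1.le (show (0 : ℝ) ≤ 1 + t' by linarith [h.ht])
      linarith
    have e2 : (1 + t') * (w u / w v) * p s u = (1 + t') * (w u * p s u) / w v := by ring
    rw [e2, le_div_iff₀ (hwp v)]
    linarith
  exact (wt_hh_mono h5).trans (ord_hh (div_pos (hwp u) (hwp v)) h.ht.le)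

theorem step_le (h : OrdRec G K M L W R eps th t' C0 Lam kap w part y p D Q) {s : ℕ} {v : V}
    (hp : 0 ≤ p s v) : p (s + 1) v ≤ p s v := by
  have hKr : (0 : ℝ) < K := by exact_mod_cast h.hK
  rw [h.hps]
  have h1 : 0 ≤ ∑ u ∈ (nb G R v).filter (fun u => u ∈ Q s), (hh (p s v / p s u) + th) := by
    refine Finset.sum_nonneg fun u hu => ?_
    have h2 := h.pos_of_mem_Q (Finset.mem_filter.1 hu).2
    have h3 := wt_hh_nonneg (div_nonneg hp h2.le)
    have h4 := h.hth
    linarith
  have h5 : 0 ≤ 1 / (K : ℝ) * (∑ u ∈ (nb G R v).filter (fun u => u ∈ Q s),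
      (hh (p s v / p s u) + th)) := by positivity
  have h6 := h.hk
  linarith

theorem inv (h : OrdRec G K M L W R eps th t' C0 Lam kap w part y p D Q) :
    ∀ s ≤ L * M, ∀ v ∈ R, v ∉ D s → Inv G K M W R eps th t' kap w part y p D s v := by
  have hKr : (0 : ℝ) < K := by exact_mod_cast h.hK
  have hwp : ∀ v, 0 < w v := fun v => lt_of_lt_of_le one_pos (h.hw v).1
  intro s
  induction s with
  | zero =>
    intro _ v hv _
    have hle : p 0 v ≤ 1 := by
      rw [h.hp0]
      have : 0 ≤ 2 * ((nb G W v).card : ℝ) / K := by positivity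
      linarith
    refine ⟨?_, ?_, ?_, hle⟩
    · rw [h.hp0, h.hD0]
      simp
    · rw [Nat.zero_div, h.hy0]
      have h1 : w v * p 0 v ≤ w v * 1 := mul_le_mul_of_nonneg_left hle (hwp v).le
      linarith [(h.hw v).2]
    · intro h1
      rw [Nat.zero_mod] at h1
      omega
  | succ s ih =>
    intro hs v hv hvD
    rw [h.hDs, Finset.mem_union, not_or] at hvD
    have hI := ih (by omega) v hv hvD.1
    have hge := h.ge_of_inv (by omega) hv hI
    have hp0 : 0 ≤ p s v := by linarith [h.he]
    have hst := h.step_le hp0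
    have hwst : w v * p (s + 1) v ≤ w v * p s v := mul_le_mul_of_nonneg_left hst (hwp v).le
    have hnQ : part v = s % M → w v * p s v ≤ y (s / M + 1) := by
      intro h1
      by_contra! h2
      exact hvD.2 ((h.hQ s v).2 ⟨hv, hvD.1, h1, h2⟩)
    have hdm := Nat.div_add_mod s M
    have hdm' := Nat.div_add_mod (s + 1) M
    have hml := Nat.mod_lt s h.hM
    have hcase : ((s + 1) / M = s / M ∧ (s + 1) % M = s % M + 1) ∨
        ((s + 1) / M = s / M + 1 ∧ (s + 1) % M = 0 ∧ s % M + 1 = M) := by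
      by_cases h1 : s % M + 1 < M
      · left
        have h2 : (s + 1) % M = s % M + 1 := by
          rw [Nat.add_mod, Nat.mod_eq_of_lt (by omega : 1 < M), Nat.mod_eq_of_lt h1]
        refine ⟨?_, h2⟩
        rw [h2] at hdm'
        have : M * ((s + 1) / M) = M * (s / M) := by omega
        exact Nat.eq_of_mul_eq_mul_left h.hM this
      · right
        have h3 : s % M + 1 = M := by omega
        have h4 : s + 1 = M * (s / M + 1) := by
          rw [Nat.mul_add, mul_one]
          omega
        refine ⟨?_, ?_, h3⟩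
        · rw [h4, Nat.mul_div_cancel_left _ h.hM]
        · rw [h4, Nat.mul_mod_right]
    refine ⟨?_, ?_, ?_, hst.trans hI.le⟩
    · -- the lower bound
      rw [h.hps]
      have b1 : (nb G R v).filter (fun u => u ∈ D (s + 1)) =
          (nb G R v).filter (fun u => u ∈ D s) ∪ (nb G R v).filter (fun u => u ∈ Q s) := by
        rw [h.hDs, ← Finset.filter_or]
        refine Finset.filter_congr fun u _ => ?_
        rw [Finset.mem_union]
      have b2 : Disjoint ((nb G R v).filter (fun u => u ∈ D s))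
          ((nb G R v).filter (fun u => u ∈ Q s)) := by
        rw [Finset.disjoint_left]
        intro u hu hu'
        exact ((h.hQ s u).1 (Finset.mem_filter.1 hu').2).2.1 (Finset.mem_filter.1 hu).2
      rw [b1, Finset.sum_union b2]
      have b3 : ∑ u ∈ (nb G R v).filter (fun u => u ∈ Q s), (hh (p s v / p s u) + th) ≤
          ∑ u ∈ (nb G R v).filter (fun u => u ∈ Q s), (hh (w u / w v) + (t' + th)) := by
        refine Finset.sum_le_sum fun u hu => ?_
        have := h.cost_le hI.up (Finset.mem_filter.1 hu).2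
        linarith
      have b4 := mul_le_mul_of_nonneg_left b3 (show (0 : ℝ) ≤ 1 / K by positivity)
      have b5 := hI.lo
      push_cast
      linarith
    · rcases hcase with ⟨c1, c2⟩ | ⟨c1, c2, c3⟩
      · rw [c1]
        exact hwst.trans hI.up
      · rw [c1]
        refine hwst.trans ?_
        have := h.hpt v
        rcases (show part v < s % M ∨ part v = s % M by omega) with h1 | h1
        · exact hI.up' h1
        · exact hnQ h1
    · rcases hcase with ⟨c1, c2⟩ | ⟨c1, c2, c3⟩
      · rw [c1, c2]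
        intro h1
        refine hwst.trans ?_
        rcases (show part v < s % M ∨ part v = s % M by omega) with h1 | h1
        · exact hI.up' h1
        · exact hnQ h1
      · rw [c2]
        intro h1
        omega

theorem all_done (h : OrdRec G K M L W R eps th t' C0 Lam kap w part y p D Q) :
    ∀ v ∈ R, v ∈ D (L * M) := by
  intro v hv
  by_contra hvD
  have hI := h.inv (L * M) le_rfl v hv hvD
  have h1 := h.ge_of_inv le_rfl hv hI
  have h2 := hI.up
  rw [Nat.mul_div_cancel _ h.hM] at h2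
  have h3 := h.hyL
  have h4 := (h.hw v).1
  have h5 := h.he
  have h6 : 1 * p (L * M) v ≤ w v * p (L * M) v :=
    mul_le_mul_of_nonneg_right h4 (by linarith)
  linarith

theorem D_mono (h : OrdRec G K M L W R eps th t' C0 Lam kap w part y p D Q) {s s' : ℕ}
    (hs : s ≤ s') : D s ⊆ D s' := by
  induction hs with
  | refl => exact Finset.Subset.refl _
  | step _ ih =>
    rw [h.hDs]
    exact ih.trans Finset.subset_union_left

/-- The order from the recursion. -/
theorem ordr [Fintype V] (h : OrdRec G K M L W R eps th t' C0 Lam kap w part y p D Q) {del : ℝ}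
    (hdel : ∀ v ∈ R, ∀ a, (((nb G R v).filter fun u => part u = a).card : ℝ) ≤ del * K) :
    ∃ t : V → ℕ, Ordr G K W R (eps / 4) th kap del (L * M) t (fun v s => p s v) := by
  classical
  set t : V → ℕ := fun v => if hv : ∃ s, v ∈ D (s + 1) then Nat.find hv else 0 with ht
  have hex : ∀ v ∈ R, ∃ s, v ∈ D (s + 1) := by
    intro v hv
    have h1 := h.all_done v hv
    exact ⟨L * M, h.D_mono (Nat.le_succ _) h1⟩
  have tspec : ∀ v ∈ R, v ∈ D (t v + 1) := by
    intro v hv
    have h1 : t v = Nat.find (hex v hv) := by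
      simp only [ht]
      rw [dif_pos (hex v hv)]
    rw [h1]
    exact Nat.find_spec (hex v hv)
  have tmin : ∀ v ∈ R, ∀ s, v ∈ D (s + 1) → t v ≤ s := by
    intro v hv s hs
    have h1 : t v = Nat.find (hex v hv) := by
      simp only [ht]
      rw [dif_pos (hex v hv)]
    rw [h1]
    exact Nat.find_min' (hex v hv) hs
  have talive : ∀ v ∈ R, ∀ s, s ≤ t v → v ∉ D s := by
    intro v hv s hs hvD
    cases s with
    | zero =>
      rw [h.hD0] at hvD
      simp at hvD
    | succ s =>
      have := tmin v hv s hvD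
      omega
  have tQ : ∀ v ∈ R, ∀ s, t v = s ↔ v ∈ Q s := by
    intro v hv s
    constructor
    · rintro rfl
      have h1 := tspec v hv
      rw [h.hDs, Finset.mem_union] at h1
      exact h1.resolve_left (talive v hv _ le_rfl)
    · intro hQ
      have h1 : t v ≤ s := tmin v hv s (by
        rw [h.hDs, Finset.mem_union]
        exact Or.inr hQ)
      by_contra hne
      have h2 : t v + 1 ≤ s := by omega
      exact ((h.hQ s v).1 hQ).2.1 (h.D_mono h2 (tspec v hv))
  have tlt : ∀ v ∈ R, t v < L * M := by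
    intro v hv
    by_contra! hle
    exact talive v hv _ hle (h.all_done v hv)
  have hinv : ∀ v ∈ R, ∀ s, s ≤ t v → Inv G K M W R eps th t' kap w part y p D s v := by
    intro v hv s hs
    exact h.inv s (hs.trans (tlt v hv).le) v hv (talive v hv s hs)
  have hge : ∀ v ∈ R, ∀ s, s ≤ t v → eps / 4 ≤ p s v := by
    intro v hv s hs
    exact h.ge_of_inv (hs.trans (tlt v hv).le) hv (hinv v hv s hs)
  have hfil : ∀ v s, (nb G R v).filter (fun u => t u = s) =
      (nb G R v).filter (fun u => u ∈ Q s) := by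
    intro v s
    refine Finset.filter_congr fun u hu => ?_
    exact tQ u (mem_nb.1 hu).1 s
  refine ⟨t, ⟨tlt, fun v _ => h.hp0 v, hge, fun v hv s hs => (hinv v hv s hs).le,
    fun v hv s hs => h.step_le (by linarith [hge v hv s hs.le, h.he]), ?_, ?_⟩⟩
  · intro v hv s hs
    rw [hfil, h.hps]
    linarith
  · intro v hv s
    refine le_trans ?_ (hdel v hv (s % M))
    have : (nb G R v).filter (fun u => t u = s) ⊆ (nb G R v).filter fun u => part u = s % M := by
      intro u hu
      rw [Finset.mem_filter] at hu ⊢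
      refine ⟨hu.1, ?_⟩
      exact ((h.hQ s u).1 ((tQ u (mem_nb.1 hu.1).1 s).1 hu.2)).2.2.1
    exact_mod_cast Finset.card_le_card this

end OrdRec

/-- The state of the recursion. -/
noncomputable def ordSt {V : Type} [DecidableEq V] (G : SimpleGraph V) (K M : ℕ) (W R : Finset V)
    (th kap : ℝ) (w : V → ℝ) (part : V → ℕ) (y : ℕ → ℝ) : ℕ → (V → ℝ) × Finset V
  | 0 => (fun v => 1 - 2 * (nb G W v).card / K, ∅)
  | s + 1 =>
    (fun v => (ordSt G K M W R th kap w part y s).1 v -
      1 / K * (∑ u ∈ (nb G R v).filter (fun u => u ∉ (ordSt G K M W R th kap w part y s).2 ∧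
        part u = s % M ∧ y (s / M + 1) < w u * (ordSt G K M W R th kap w part y s).1 u),
        (hh ((ordSt G K M W R th kap w part y s).1 v / (ordSt G K M W R th kap w part y s).1 u) +
          th)) - kap,
      (ordSt G K M W R th kap w part y s).2 ∪
        R.filter (fun u => u ∉ (ordSt G K M W R th kap w part y s).2 ∧
        part u = s % M ∧ y (s / M + 1) < w u * (ordSt G K M W R th kap w part y s).1 u))

/-- The order exists. -/
theorem ord : OrdS := by
  classical
  intro eps h0 h1
  obtain ⟨C0, Lam, hC0, hLam, hwt⟩ := wt eps h0 h1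
  refine ⟨C0, hC0, ?_⟩
  intro th hth hthle
  have hC0p : 0 < C0 := by linarith
  set t' : ℝ := eps / (32 * C0) with ht'
  have ht'0 : 0 < t' := by positivity
  have hLamp : 0 < Lam := by linarith
  obtain ⟨L, hL⟩ := pow_unbounded_of_one_lt (4 * Lam / eps) (show 1 < 1 + t' by linarith)
  have hB : (0 : ℝ) < (L + 1) * (2 * C0 + 1) := by positivity
  refine ⟨eps / (16 * ((L + 1) * (2 * C0 + 1))), (L + 1) * (2 * C0 + 1), by positivity, hB, ?_⟩
  intro del hdel hdel1
  set M : ℕ := ⌈2 * C0 / del⌉₊ with hM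
  have hM0 : 0 < M := Nat.ceil_pos.2 (by positivity)
  have hM1 : 2 * C0 / del ≤ (M : ℝ) := Nat.le_ceil _
  have hM2 : (M : ℝ) * del ≤ 2 * C0 + 1 := by
    have e1 : (M : ℝ) < 2 * C0 / del + 1 := Nat.ceil_lt_add_one (by positivity)
    have e2 := mul_le_mul_of_nonneg_right e1.le hdel.le
    have e3 : (2 * C0 / del + 1) * del = 2 * C0 + del := by
      field_simp
    linarith
  have hJ : ((L * M : ℕ) : ℝ) * del ≤ (L + 1) * (2 * C0 + 1) := by
    push_cast
    have e1 : (L : ℝ) * ((M : ℝ) * del) ≤ (L : ℝ) * (2 * C0 + 1) :=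
      mul_le_mul_of_nonneg_left hM2 (Nat.cast_nonneg _)
    nlinarith
  obtain ⟨K0, hK0⟩ := Pool.Agent.H97.PK.split C0 del hC0p hdel M hM1
  refine ⟨L * M, K0 + 1, hJ, ?_⟩
  intro K hK V _ _ G S hS hsp
  have hKpos : 0 < K := by omega
  obtain ⟨W, R, w, hWR, hdis, hR, hw, hdeg, hst⟩ := hwt K hKpos V G S hS hsp
  have hRS : R ⊆ S := by
    rw [← hWR]
    exact Finset.subset_union_right
  have hdegR : ∀ v ∈ R, ((nb G R v).card : ℝ) ≤ C0 * K := by
    intro v hv
    refine le_trans ?_ (hdeg v hv)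
    exact_mod_cast Finset.card_le_card (nb_mono hRS v)
  obtain ⟨part, hpart⟩ := hK0 K (by omega) V G R hdegR
  set kap : ℝ := eps / (16 * ((L + 1) * (2 * C0 + 1))) * del with hkap
  set y : ℕ → ℝ := fun l => Lam / (1 + t') ^ l with hy
  set st := ordSt G K M W R th kap w (fun v => (part v : ℕ)) y with hstd
  have h1t : 0 < 1 + t' := by linarith
  have hrec : OrdRec G K M L W R eps th t' C0 Lam kap w (fun v => (part v : ℕ)) y
      (fun s => (st s).1) (fun s => (st s).2)
      (fun s => R.filter (fun u => u ∉ (st s).2 ∧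
        (part u : ℕ) = s % M ∧ y (s / M + 1) < w u * (st s).1 u)) := by
    refine ⟨hKpos, hM0, h0, hth.le, ht'0, by positivity, ?_, ?_, hw, hdegR, hst,
      fun v => (part v).2, ?_, ?_, ?_, ?_, ?_, ?_, ?_, ?_, ?_⟩
    · -- kap
      have e1 : ((L * M : ℕ) : ℝ) * kap = ((L * M : ℕ) : ℝ) * del *
          (eps / (16 * ((L + 1) * (2 * C0 + 1)))) := by
        rw [hkap]
        ring
      rw [e1]
      have e2 := mul_le_mul_of_nonneg_right hJ
        (show 0 ≤ eps / (16 * (((L : ℝ) + 1) * (2 * C0 + 1))) by positivity)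
      refine e2.trans_eq ?_
      field_simp
    · have e1 : C0 * (t' + th) ≤ C0 * (eps / (32 * C0) + eps / (32 * C0)) :=
        mul_le_mul_of_nonneg_left (by linarith) hC0p.le
      refine e1.trans_eq ?_
      field_simp
      norm_num
    · simp [hy]
    · intro l
      simp only [hy]
      rw [pow_succ]
      field_simp
    · intro l
      simp only [hy]
      positivity
    · simp only [hy]
      rw [div_lt_iff₀ (by positivity)]
      have e1 : 4 * Lam / eps * (eps / 4) < (1 + t') ^ L * (eps / 4) :=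
        mul_lt_mul_of_pos_right hL (by positivity)
      have e2 : 4 * Lam / eps * (eps / 4) = Lam := by
        field_simp
      linarith
    · intro v
      rfl
    · intro s v
      have e1 : (nb G R v).filter (fun u => u ∈ R.filter (fun u => u ∉ (st s).2 ∧
          (part u : ℕ) = s % M ∧ y (s / M + 1) < w u * (st s).1 u)) =
          (nb G R v).filter (fun u => u ∉ (st s).2 ∧
          (part u : ℕ) = s % M ∧ y (s / M + 1) < w u * (st s).1 u) := by
        refine Finset.filter_congr fun u hu => ?_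
        rw [Finset.mem_filter]
        exact ⟨fun h => h.2, fun h => ⟨(mem_nb.1 hu).1, h⟩⟩
      rw [e1]
      rfl
    · rfl
    · intro s
      rfl
    · intro s v
      rw [Finset.mem_filter]
  obtain ⟨t, ht⟩ := hrec.ordr (del := del) (by
    intro v hv a
    by_cases ha : a < M
    · have e1 := hpart v hv ⟨a, ha⟩
      have e2 : ((nb G R v).filter fun u => ((part u : Fin M) : ℕ) = a) =
          (nb G R v).filter fun u => part u = ⟨a, ha⟩ := by
        refine Finset.filter_congr fun u _ => ?_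
        rw [Fin.ext_iff]
      rw [e2]
      exact e1
    · have e2 : ((nb G R v).filter fun u => ((part u : Fin M) : ℕ) = a) = ∅ := by
        refine Finset.filter_eq_empty_iff.2 fun u _ => ?_
        have := (part u).2
        omega
      rw [e2]
      have : (0 : ℝ) ≤ del * K := by positivity
      simpa using this)
  exact ⟨W, R, t, _, hWR, hdis, hR, hdeg, ht⟩

end Pool.Agent.PK
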