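import Pool.Agent.H10.PK.OrdDefs

/-!
# Packing (PK): static weights

For a sparse set `S` there are levels `i : S → {0, ..., M}` such that the vertices with `i v < M`
pay less than `(1 - eps / 2) K`: a maximal element of the set of the level functions whose total
value is at most a potential `∑ Gam (i u) (i v)` over the edges.
-/

set_option autoImplicit false

open Finset

namespace Pool.Agent.PK

open Pool.Agent.H24.LP

theorem wt_hh_mono {a b : ℝ} (h : a ≤ b) : hh a ≤ hh b := by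
  unfold hh
  have h1 : min a 1 ≤ min b 1 := min_le_min_right 1 h
  have h2 : max a 1 ≤ max b 1 := max_le_max_right 1 h
  have h3 : 1 / max b 1 ≤ 1 / max a 1 :=
    one_div_le_one_div_of_le (lt_max_of_lt_right one_pos) h2
  linarith

theorem wt_hh_nonneg {a : ℝ} (h : 0 ≤ a) : 0 ≤ hh a := by
  have h1 := wt_hh_mono h
  rwa [hh_le_one zero_le_one] at h1

/-- the part of the potential which depends on the distance of the levels -/
noncomputable def wtPsi (r : ℝ) (k : ℕ) : ℝ := -∑ l ∈ range k, (1 - r ^ (l + 1))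

/-- the part of the potential for an end in `W` -/
noncomputable def wtE (M : ℕ) (r : ℝ) (j : ℕ) : ℝ := ∑ l ∈ range j, r ^ (M - l)

/-- the potential of an edge -/
noncomputable def wtG (M : ℕ) (r θ : ℝ) (i j : ℕ) : ℝ :=
  (1 + θ) * (i + j) + wtPsi r ((i - j) + (j - i)) + (if i = M then wtE M r j else 0) +
    (if j = M then wtE M r i else 0)

theorem wtG_symm (M : ℕ) (r θ : ℝ) (i j : ℕ) : wtG M r θ i j = wtG M r θ j i := by
  unfold wtG
  rw [add_comm (i - j) (j - i)]
  ring

theorem wtPsi_succ (r : ℝ) (k : ℕ) : wtPsi r (k + 1) = wtPsi r k - (1 - r ^ (k + 1)) := by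
  unfold wtPsi
  rw [Finset.sum_range_succ]
  ring

theorem wtPsi_nonpos {r : ℝ} (h0 : 0 ≤ r) (h1 : r ≤ 1) (k : ℕ) : wtPsi r k ≤ 0 := by
  unfold wtPsi
  rw [neg_nonpos]
  refine Finset.sum_nonneg fun l _ => ?_
  have := pow_le_one₀ (n := l + 1) h0 h1
  linarith

theorem wtPsi_ge {r : ℝ} (h0 : 0 ≤ r) (k : ℕ) : -(k : ℝ) ≤ wtPsi r k := by
  unfold wtPsi
  rw [neg_le_neg_iff]
  calc ∑ l ∈ range k, (1 - r ^ (l + 1)) ≤ ∑ _l ∈ range k, (1 : ℝ) := by
        refine Finset.sum_le_sum fun l _ => ?_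
        have := pow_nonneg h0 (l + 1)
        linarith
    _ = k := by simp

theorem wtE_succ (M : ℕ) (r : ℝ) (j : ℕ) : wtE M r (j + 1) = wtE M r j + r ^ (M - j) := by
  unfold wtE
  rw [Finset.sum_range_succ]

theorem wtE_nonneg (M : ℕ) {r : ℝ} (h0 : 0 ≤ r) (j : ℕ) : 0 ≤ wtE M r j :=
  Finset.sum_nonneg fun l _ => pow_nonneg h0 _

theorem wtE_le (M : ℕ) {r θ : ℝ} (hθ : 0 < θ) (hr : 0 ≤ r) (hrq : r * (1 + θ) = 1) :
    ∀ j ≤ M, wtE M r j ≤ r ^ (M - j) / θ := by
  intro j
  induction j with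
  | zero =>
    intro _
    have : wtE M r 0 = 0 := by simp [wtE]
    rw [this]
    positivity
  | succ j ih =>
    intro hj
    have h1 := ih (by omega)
    rw [wtE_succ]
    obtain ⟨m, hm⟩ : ∃ m, M - j = m + 1 := ⟨M - j - 1, by omega⟩
    have h2 : M - (j + 1) = m := by omega
    rw [hm] at h1 ⊢
    rw [h2]
    have h3 : r ^ (m + 1) / θ + r ^ (m + 1) = r ^ m / θ := by
      have h4 : r ^ (m + 1) / θ + r ^ (m + 1) = r ^ m * (r * (1 + θ)) / θ := by
        field_simp
        ring
      rw [h4, hrq, mul_one]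
    linarith

theorem wtG_nonneg (M : ℕ) {r θ : ℝ} (hθ : 0 < θ) (h0 : 0 ≤ r) (i j : ℕ) :
    0 ≤ wtG M r θ i j := by
  unfold wtG
  have h1 := wtPsi_ge h0 ((i - j) + (j - i))
  have h2 : (((i - j) + (j - i) : ℕ) : ℝ) ≤ i + j := by
    have : (i - j) + (j - i) ≤ i + j := by omega
    exact_mod_cast this
  have h3 : 0 ≤ (if i = M then wtE M r j else 0) := by
    split_ifs
    · exact wtE_nonneg M h0 j
    · exact le_rfl
  have h4 : 0 ≤ (if j = M then wtE M r i else 0) := by
    split_ifs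
    · exact wtE_nonneg M h0 i
    · exact le_rfl
  have h5 : 0 ≤ θ * ((i : ℝ) + j) := by positivity
  linarith

theorem wtG_le (M : ℕ) {r θ : ℝ} (hθ : 0 < θ) (h0 : 0 ≤ r) (h1 : r ≤ 1)
    (hrq : r * (1 + θ) = 1) {i j : ℕ} (hi : i ≤ M) (hj : j ≤ M) :
    wtG M r θ i j ≤ 2 * (1 + θ) * M + 2 / θ := by
  unfold wtG
  have e1 := wtPsi_nonpos h0 h1 ((i - j) + (j - i))
  have e2 : ∀ l ≤ M, wtE M r l ≤ 1 / θ := by
    intro l hl
    refine (wtE_le M hθ h0 hrq l hl).trans ?_
    gcongr
    exact pow_le_one₀ h0 h1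
  have e3 : (if i = M then wtE M r j else 0) ≤ 1 / θ := by
    split_ifs
    · exact e2 j hj
    · positivity
  have e4 : (if j = M then wtE M r i else 0) ≤ 1 / θ := by
    split_ifs
    · exact e2 i hi
    · positivity
  have e5 : ((i : ℝ) + j) ≤ 2 * M := by
    have h1 : (i : ℝ) ≤ M := by exact_mod_cast hi
    have h2 : (j : ℝ) ≤ M := by exact_mod_cast hj
    linarith
  have e6 : (1 + θ) * ((i : ℝ) + j) ≤ (1 + θ) * (2 * M) :=
    mul_le_mul_of_nonneg_left e5 (by linarith)
  have e7 : 2 / θ = 1 / θ + 1 / θ := by ring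
  rw [e7]
  linarith

/-- the cost of a neighbour of level `i` for a vertex of level `j` -/
noncomputable def wtg (M : ℕ) (q : ℝ) (i j : ℕ) : ℝ := if i = M then 2 else hh (q ^ i / q ^ j)

theorem wtg_le (M : ℕ) {r θ : ℝ} (hθ : 0 < θ) (hr : 0 < r) (hrq : r * (1 + θ) = 1)
    {i j : ℕ} (hi : i ≤ M) (hj : j < M) :
    wtg M (1 + θ) i j ≤ wtG M r θ i (j + 1) - wtG M r θ i j := by
  have hq : (0 : ℝ) < 1 + θ := by linarith
  have hq1 : (1 : ℝ) ≤ 1 + θ := by linarith
  have hr1 : r ≤ 1 := by nlinarith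
  have hre : r = (1 + θ)⁻¹ := by
    field_simp
    linarith
  unfold wtg
  rcases lt_or_ge j i with hji | hij
  · -- `v` is behind
    obtain ⟨k, hk⟩ : ∃ k, i = j + (k + 1) := ⟨i - j - 1, by omega⟩
    have a1 : (i - (j + 1)) + ((j + 1) - i) = k := by omega
    have a2 : (i - j) + (j - i) = k + 1 := by omega
    have hpow : (1 + θ) ^ i / (1 + θ) ^ j = (1 + θ) ^ (k + 1) := by
      rw [hk, pow_add]
      field_simp
    by_cases hiM : i = M
    · rw [if_pos hiM]
      unfold wtG
      rw [a1, a2, wtPsi_succ, if_pos hiM, if_pos hiM, wtE_succ, if_neg (by omega : ¬ j = M)]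
      have a3 : M - j = k + 1 := by omega
      rw [a3]
      have a4 : 0 ≤ (if j + 1 = M then wtE M r i else 0) := by
        split_ifs
        · exact wtE_nonneg M hr.le i
        · exact le_rfl
      push_cast
      linarith
    · rw [if_neg hiM, hpow, hh_one_le (one_le_pow₀ hq1)]
      unfold wtG
      rw [a1, a2, wtPsi_succ, if_neg hiM, if_neg hiM, if_neg (by omega : ¬ j = M),
        if_neg (by omega : ¬ j + 1 = M)]
      have a5 : 1 / (1 + θ) ^ (k + 1) = r ^ (k + 1) := by
        rw [hre, inv_pow, one_div]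
      rw [a5]
      push_cast
      linarith
  · -- `v` is ahead
    obtain ⟨k, hk⟩ : ∃ k, j = i + k := ⟨j - i, by omega⟩
    have a1 : (i - (j + 1)) + ((j + 1) - i) = k + 1 := by omega
    have a2 : (i - j) + (j - i) = k := by omega
    have hpow : (1 + θ) ^ i / (1 + θ) ^ j = r ^ k := by
      rw [hk, pow_add, hre, inv_pow]
      field_simp
    rw [if_neg (by omega : ¬ i = M), hpow, hh_le_one (pow_le_one₀ hr.le hr1)]
    unfold wtG
    rw [a1, a2, wtPsi_succ, if_neg (by omega : ¬ i = M), if_neg (by omega : ¬ i = M),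
      if_neg (by omega : ¬ j = M)]
    have a4 : 0 ≤ (if j + 1 = M then wtE M r i else 0) := by
      split_ifs
      · exact wtE_nonneg M hr.le i
      · exact le_rfl
    have a5 : r ^ k = r ^ (k + 1) + θ * r ^ (k + 1) := by
      have : r ^ k = r ^ k * (r * (1 + θ)) := by rw [hrq, mul_one]
      rw [this]
      ring
    have a6 : r ^ (k + 1) ≤ 1 := pow_le_one₀ hr.le hr1
    have a7 : θ * r ^ (k + 1) ≤ θ := by nlinarith
    push_cast
    linarith

section graph

variable {V : Type} [DecidableEq V] (G : SimpleGraph V)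

/-- the total potential (twice the sum over the edges) -/
noncomputable def wtPhi (Γ : ℕ → ℕ → ℝ) (S : Finset V) (i : V → ℕ) : ℝ :=
  ∑ v ∈ S, ∑ u ∈ nb G S v, Γ (i u) (i v)

theorem wtPhi_update {Γ : ℕ → ℕ → ℝ} (hΓ : ∀ a b, Γ a b = Γ b a) (S : Finset V) (i : V → ℕ)
    {v : V} (hv : v ∈ S) (m : ℕ) :
    wtPhi G Γ S (Function.update i v m) =
      wtPhi G Γ S i + 2 * ∑ u ∈ nb G S v, (Γ (i u) m - Γ (i u) (i v)) := by
  classical
  have key : ∀ x ∈ S, ∑ u ∈ nb G S x,
      Γ (Function.update i v m u) (Function.update i v m x) = ∑ u ∈ nb G S x, Γ (i u) (i x) +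
      (if x = v then ∑ u ∈ nb G S v, (Γ (i u) m - Γ (i u) (i v)) else 0) +
      (if x ∈ nb G S v then (Γ (i x) m - Γ (i x) (i v)) else 0) := by
    intro x hx
    by_cases hxv : x = v
    · subst hxv
      have h1 : x ∉ nb G S x := by
        rw [mem_nb]
        exact fun h => G.loopless.irrefl x h.2
      rw [if_pos rfl, if_neg h1, add_zero, ← Finset.sum_add_distrib]
      refine Finset.sum_congr rfl fun u hu => ?_
      have h2 : u ≠ x := by
        rintro rfl
        exact h1 hu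
      rw [Function.update_of_ne h2, Function.update_self]
      ring
    · rw [if_neg hxv, add_zero, Function.update_of_ne hxv]
      by_cases hn : x ∈ nb G S v
      · rw [if_pos hn]
        have hvn : v ∈ nb G S x := by
          rw [mem_nb] at hn ⊢
          exact ⟨hv, hn.2.symm⟩
        rw [← Finset.add_sum_erase _ _ hvn, ← Finset.add_sum_erase (nb G S x)
          (fun u => Γ (i u) (i x)) hvn, Function.update_self]
        have h3 : ∑ u ∈ (nb G S x).erase v, Γ (Function.update i v m u) (i x) =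
            ∑ u ∈ (nb G S x).erase v, Γ (i u) (i x) := by
          refine Finset.sum_congr rfl fun u hu => ?_
          rw [Function.update_of_ne (Finset.ne_of_mem_erase hu)]
        rw [h3, hΓ m (i x), hΓ (i v) (i x)]
        ring
      · rw [if_neg hn, add_zero]
        refine Finset.sum_congr rfl fun u hu => ?_
        have h2 : u ≠ v := by
          rintro rfl
          apply hn
          rw [mem_nb] at hu ⊢
          exact ⟨hx, hu.2.symm⟩
        rw [Function.update_of_ne h2]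
  unfold wtPhi
  rw [Finset.sum_congr rfl key, Finset.sum_add_distrib, Finset.sum_add_distrib,
    Finset.sum_ite_eq' S v, if_pos hv, Finset.sum_ite_mem, Finset.inter_eq_right.2]
  · ring
  · intro u hu
    exact (mem_nb.1 hu).1

theorem wtPhi_nonneg {Γ : ℕ → ℕ → ℝ} (hΓ : ∀ a b, 0 ≤ Γ a b) (S : Finset V) (i : V → ℕ) :
    0 ≤ wtPhi G Γ S i :=
  Finset.sum_nonneg fun _ _ => Finset.sum_nonneg fun _ _ => hΓ _ _

theorem wtPhi_le {Γ : ℕ → ℕ → ℝ} {M : ℕ} {b : ℝ} (hΓ : ∀ a ≤ M, ∀ c ≤ M, Γ a c ≤ b)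
    (S : Finset V) (i : V → ℕ) (hi : ∀ v, i v ≤ M) :
    wtPhi G Γ S i ≤ b * ∑ v ∈ S, ((nb G S v).card : ℝ) := by
  unfold wtPhi
  rw [Finset.mul_sum]
  refine Finset.sum_le_sum fun v _ => ?_
  calc ∑ u ∈ nb G S v, Γ (i u) (i v) ≤ ∑ _u ∈ nb G S v, b :=
        Finset.sum_le_sum fun u _ => hΓ _ (hi u) _ (hi v)
    _ = b * ((nb G S v).card : ℝ) := by
        rw [Finset.sum_const, nsmul_eq_mul, mul_comm]

end graph

theorem wt_num {eps M : ℝ} (h0 : 0 < eps) (_h1 : eps < 1) (hM : 32 / eps ^ 2 ≤ M) :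
    (1 - eps) * ((1 + eps / 8) * M + 8 / eps) < (1 - eps / 2) * (1 - eps / 8) * M := by
  have h2 : 8 / eps ≤ eps / 4 * M := by
    have h3 : eps / 4 * (32 / eps ^ 2) ≤ eps / 4 * M := mul_le_mul_of_nonneg_left hM (by positivity)
    have h4 : eps / 4 * (32 / eps ^ 2) = 8 / eps := by
      field_simp
      norm_num
    linarith
  have h5 : 0 < 8 / eps := by positivity
  have h6 : 0 ≤ M := by
    have : 0 < 32 / eps ^ 2 := by positivity
    linarith
  have h7 : 0 < eps * (8 / eps) := by positivity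
  have h8 : 0 ≤ eps ^ 2 * M := by positivity
  nlinarith

/-- Static weights exist. -/
theorem wt : WtS := by
  intro eps h0 h1
  obtain ⟨M, hM⟩ := exists_nat_ge (32 / eps ^ 2)
  set θ : ℝ := eps / 8 with hθd
  have hθ : 0 < θ := by positivity
  set r : ℝ := (1 + θ)⁻¹ with hrd
  have hq : (0 : ℝ) < 1 + θ := by linarith
  have hr : 0 < r := by positivity
  have hrq : r * (1 + θ) = 1 := inv_mul_cancel₀ hq.ne'
  have hr1 : r ≤ 1 := by nlinarith
  have hq1 : (1 : ℝ) ≤ 1 + θ := by linarith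
  refine ⟨8 / eps, (1 + θ) ^ M, ?_, one_le_pow₀ hq1, ?_⟩
  · rw [one_le_div h0]
    linarith
  intro K hK V _ _ G S hS hsp
  classical
  have hKr : (0 : ℝ) < K := by exact_mod_cast hK
  have hSr : (0 : ℝ) < S.card := by exact_mod_cast hS.card_pos
  set Γ : ℕ → ℕ → ℝ := wtG M r θ with hΓd
  set Hi : Finset V := S.filter fun v => 8 / eps * K < ((nb G S v).card : ℝ) with hHi
  -- few vertices of high degree
  have hHc : (Hi.card : ℝ) ≤ eps / 8 * S.card := by
    have a1 : (Hi.card : ℝ) * (8 / eps * K) ≤ ∑ v ∈ Hi, ((nb G S v).card : ℝ) := by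
      rw [← nsmul_eq_mul, ← Finset.sum_const]
      exact Finset.sum_le_sum fun v hv => (Finset.mem_filter.1 hv).2.le
    have a2 : ∑ v ∈ Hi, ((nb G S v).card : ℝ) ≤ ∑ v ∈ S, ((nb G S v).card : ℝ) :=
      Finset.sum_le_sum_of_subset_of_nonneg (Finset.filter_subset _ _)
        fun _ _ _ => Nat.cast_nonneg _
    have a3 : (1 - eps) * K * S.card ≤ K * S.card := by
      have : 0 ≤ eps * (K * S.card) := by positivity
      nlinarith
    have a4 : (Hi.card : ℝ) * (8 / eps * K) ≤ K * S.card := by linarith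
    have a5 : (Hi.card : ℝ) * (8 / eps * K) = (8 / eps * Hi.card) * K := by ring
    rw [a5, mul_comm (K : ℝ)] at a4
    have a6 := le_of_mul_le_mul_right a4 hKr
    have a7 : eps / 8 * (8 / eps * Hi.card) ≤ eps / 8 * S.card :=
      mul_le_mul_of_nonneg_left a6 (by positivity)
    have a8 : eps / 8 * (8 / eps * Hi.card) = Hi.card := by
      field_simp
    linarith
  -- the maximal level function
  set P : (V → Fin (M + 1)) → Prop := fun i => (∀ v ∈ Hi, (i v : ℕ) = M) ∧
    2 * ((1 - eps / 2) * K) * ∑ v ∈ S \ Hi, ((i v : ℕ) : ℝ) ≤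
      wtPhi G Γ S (fun v => (i v : ℕ)) with hP
  have hne : (Finset.univ.filter P).Nonempty := by
    refine ⟨fun v => if v ∈ Hi then Fin.last M else 0, ?_⟩
    rw [Finset.mem_filter]
    refine ⟨Finset.mem_univ _, ?_, ?_⟩
    · intro v hv
      simp only [if_pos hv, Fin.val_last]
    · have : ∑ v ∈ S \ Hi, (((if v ∈ Hi then Fin.last M else (0 : Fin (M + 1)) : Fin (M + 1)) : ℕ)
          : ℝ) = 0 := by
        refine Finset.sum_eq_zero fun v hv => ?_
        rw [if_neg (Finset.mem_sdiff.1 hv).2]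
        simp
      rw [this, mul_zero]
      exact wtPhi_nonneg G (fun a b => wtG_nonneg M hθ hr.le a b) S _
  obtain ⟨i, hi, hmax⟩ := Finset.exists_max_image (Finset.univ.filter P)
    (fun i => ∑ v ∈ S \ Hi, (i v : ℕ)) hne
  obtain ⟨hi1, hi2⟩ := (Finset.mem_filter.1 hi).2
  have hiM : ∀ v, (i v : ℕ) ≤ M := fun v => Nat.lt_succ_iff.1 (i v).2
  have key : ∀ v ∈ S, (i v : ℕ) < M →
      ∑ u ∈ nb G S v, wtg M (1 + θ) (i u) (i v) ≤ (1 - eps / 2) * K := by
    intro v hv hvM
    by_contra! hcon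
    have hvH : v ∉ Hi := fun h => by
      have := hi1 v h
      omega
    have hvS : v ∈ S \ Hi := Finset.mem_sdiff.2 ⟨hv, hvH⟩
    set i' : V → Fin (M + 1) := Function.update i v ⟨i v + 1, by omega⟩ with hi'
    have hcoe : (fun u => ((i' u : Fin (M + 1)) : ℕ)) =
        Function.update (fun u => (i u : ℕ)) v ((i v : ℕ) + 1) := by
      funext u
      by_cases huv : u = v
      · subst huv
        rw [hi', Function.update_self, Function.update_self]
      · rw [hi', Function.update_of_ne huv, Function.update_of_ne huv]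
    have hsum : ∑ u ∈ S \ Hi, ((i' u : Fin (M + 1)) : ℕ) = ∑ u ∈ S \ Hi, (i u : ℕ) + 1 := by
      have b1 : ∑ u ∈ S \ Hi, ((i' u : Fin (M + 1)) : ℕ) =
          ∑ u ∈ S \ Hi, Function.update (fun u => (i u : ℕ)) v ((i v : ℕ) + 1) u :=
        congrArg (fun f : V → ℕ => ∑ u ∈ S \ Hi, f u) hcoe
      rw [b1, ← Finset.add_sum_erase _ _ hvS, ← Finset.add_sum_erase (S \ Hi)
        (fun u => (i u : ℕ)) hvS, Function.update_self]
      have b2 : ∑ u ∈ (S \ Hi).erase v, Function.update (fun u => (i u : ℕ)) v ((i v : ℕ) + 1) u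
          = ∑ u ∈ (S \ Hi).erase v, (i u : ℕ) := by
        refine Finset.sum_congr rfl fun u hu => ?_
        rw [Function.update_of_ne (Finset.ne_of_mem_erase hu)]
      rw [b2]
      ring
    have hmem : i' ∈ Finset.univ.filter P := by
      rw [Finset.mem_filter]
      refine ⟨Finset.mem_univ _, ?_, ?_⟩
      · intro u hu
        have : u ≠ v := by
          rintro rfl
          exact hvH hu
        rw [hi', Function.update_of_ne this]
        exact hi1 u hu
      · have c1 : (∑ u ∈ S \ Hi, (((i' u : Fin (M + 1)) : ℕ) : ℝ)) =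
            ∑ u ∈ S \ Hi, ((i u : ℕ) : ℝ) + 1 := by
          have := congrArg (fun n : ℕ => (n : ℝ)) hsum
          push_cast at this
          exact this
        rw [c1, hcoe, wtPhi_update G (fun a b => wtG_symm M r θ a b) S _ hv]
        have c2 : ∑ u ∈ nb G S v, wtg M (1 + θ) (i u) (i v) ≤
            ∑ u ∈ nb G S v, (Γ (i u) ((i v : ℕ) + 1) - Γ (i u) (i v)) :=
          Finset.sum_le_sum fun u _ => wtg_le M hθ hr hrq (hiM u) hvM
        have c3 : 2 * ((1 - eps / 2) * K) * (∑ u ∈ S \ Hi, ((i u : ℕ) : ℝ) + 1) =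
          2 * ((1 - eps / 2) * K) * ∑ u ∈ S \ Hi, ((i u : ℕ) : ℝ) + 2 * ((1 - eps / 2) * K) := by
          ring
        rw [c3]
        linarith
    have hle := hmax i' hmem
    rw [hsum] at hle
    omega
  -- the sets
  refine ⟨S.filter fun v => (i v : ℕ) = M, S.filter fun v => (i v : ℕ) < M,
    fun v => (1 + θ) ^ (i v : ℕ), ?_, ?_, ?_, ?_, ?_, ?_⟩
  · ext v
    rw [Finset.mem_union, Finset.mem_filter, Finset.mem_filter]
    constructor
    · rintro (h | h) <;> exact h.1
    · intro h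
      rcases (hiM v).lt_or_eq with h2 | h2
      · exact Or.inr ⟨h, h2⟩
      · exact Or.inl ⟨h, h2⟩
  · rw [Finset.disjoint_left]
    intro v hv hv'
    have e1 := (Finset.mem_filter.1 hv).2
    have e2 := (Finset.mem_filter.1 hv').2
    omega
  · by_contra hR
    rw [Finset.not_nonempty_iff_eq_empty] at hR
    have hall : ∀ v ∈ S, (i v : ℕ) = M := by
      intro v hv
      by_contra hne
      have : v ∈ S.filter fun v => (i v : ℕ) < M :=
        Finset.mem_filter.2 ⟨hv, lt_of_le_of_ne (hiM v) hne⟩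
      rw [hR] at this
      simp at this
    have d1 : ∑ v ∈ S \ Hi, ((i v : ℕ) : ℝ) = ((S \ Hi).card : ℝ) * M := by
      rw [← nsmul_eq_mul, ← Finset.sum_const]
      refine Finset.sum_congr rfl fun v hv => ?_
      rw [hall v (Finset.mem_sdiff.1 hv).1]
    have d2 : ((S \ Hi).card : ℝ) = S.card - Hi.card := by
      rw [Finset.card_sdiff_of_subset (Finset.filter_subset _ _),
        Nat.cast_sub (Finset.card_le_card (Finset.filter_subset _ _))]
    have d3 : (1 - eps / 8) * S.card ≤ ((S \ Hi).card : ℝ) := by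
      rw [d2]
      linarith
    have d4 := wtPhi_le G (Γ := Γ) (M := M) (b := 2 * (1 + θ) * M + 2 / θ)
      (fun a ha c hc => wtG_le M hθ hr.le hr1 hrq ha hc) S (fun v => (i v : ℕ)) hiM
    have hb : 0 ≤ 2 * (1 + θ) * M + 2 / θ := by positivity
    have d5 := mul_le_mul_of_nonneg_left hsp hb
    have hM0 : (0 : ℝ) ≤ M := Nat.cast_nonneg _
    have hE : 0 ≤ 2 * ((1 - eps / 2) * K) := by
      have : 0 < 1 - eps / 2 := by linarith
      positivity
    have d6 : 2 * ((1 - eps / 2) * K) * ((1 - eps / 8) * S.card * M) ≤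
        2 * ((1 - eps / 2) * K) * ∑ v ∈ S \ Hi, ((i v : ℕ) : ℝ) := by
      rw [d1]
      exact mul_le_mul_of_nonneg_left (mul_le_mul_of_nonneg_right d3 hM0) hE
    have d7 : 2 * ((1 - eps / 2) * K) * ((1 - eps / 8) * S.card * M) ≤
        (2 * (1 + θ) * M + 2 / θ) * ((1 - eps) * K * S.card) := by linarith
    have d8 : (2 : ℝ) / θ = 2 * (8 / eps) := by
      rw [hθd]
      field_simp
    have d9 := wt_num h0 h1 hM
    have d10 : 0 < 2 * ((K : ℝ) * S.card) := by positivity
    have d11 := mul_lt_mul_of_pos_left d9 d10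
    rw [d8] at d7
    have d12 : 2 * ((1 - eps / 2) * K) * ((1 - eps / 8) * S.card * M) =
        2 * (K * S.card) * ((1 - eps / 2) * (1 - eps / 8) * M) := by ring
    have d13 : (2 * (1 + θ) * M + 2 * (8 / eps)) * ((1 - eps) * K * S.card) =
        2 * (K * S.card) * ((1 - eps) * ((1 + eps / 8) * M + 8 / eps)) := by
      rw [hθd]
      ring
    linarith
  · intro v
    constructor
    · exact one_le_pow₀ hq1
    · exact pow_le_pow_right₀ hq1 (hiM v)
  · intro v hv
    obtain ⟨hvS, hvM⟩ := Finset.mem_filter.1 hv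
    by_contra! hcon
    have : v ∈ Hi := Finset.mem_filter.2 ⟨hvS, hcon⟩
    have := hi1 v this
    omega
  · intro v hv
    obtain ⟨hvS, hvM⟩ := Finset.mem_filter.1 hv
    have f1 := key v hvS hvM
    have f2 : nb G S v = nb G (S.filter fun v => (i v : ℕ) = M) v ∪
        nb G (S.filter fun v => (i v : ℕ) < M) v := by
      ext u
      rw [Finset.mem_union, mem_nb, mem_nb, mem_nb, Finset.mem_filter, Finset.mem_filter]
      constructor
      · rintro ⟨h, h'⟩
        rcases (hiM u).lt_or_eq with h2 | h2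
        · exact Or.inr ⟨⟨h, h2⟩, h'⟩
        · exact Or.inl ⟨⟨h, h2⟩, h'⟩
      · rintro (h | h)
        · exact ⟨h.1.1, h.2⟩
        · exact ⟨h.1.1, h.2⟩
    have f3 : Disjoint (nb G (S.filter fun v => (i v : ℕ) = M) v)
        (nb G (S.filter fun v => (i v : ℕ) < M) v) := by
      rw [Finset.disjoint_left]
      intro u hu hu'
      rw [mem_nb, Finset.mem_filter] at hu hu'
      have e1 := hu.1.2
      have e2 := hu'.1.2
      omega
    rw [f2, Finset.sum_union f3] at f1
    have f4 : ∑ u ∈ nb G (S.filter fun v => (i v : ℕ) = M) v, wtg M (1 + θ) (i u) (i v) =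
        2 * ((nb G (S.filter fun v => (i v : ℕ) = M) v).card : ℝ) := by
      rw [mul_comm, ← nsmul_eq_mul, ← Finset.sum_const]
      refine Finset.sum_congr rfl fun u hu => ?_
      rw [mem_nb, Finset.mem_filter] at hu
      unfold wtg
      rw [if_pos hu.1.2]
    have f5 : ∑ u ∈ nb G (S.filter fun v => (i v : ℕ) < M) v, wtg M (1 + θ) (i u) (i v) =
        ∑ u ∈ nb G (S.filter fun v => (i v : ℕ) < M) v,
          hh ((1 + θ) ^ (i u : ℕ) / (1 + θ) ^ (i v : ℕ)) := by
      refine Finset.sum_congr rfl fun u hu => ?_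
      rw [mem_nb, Finset.mem_filter] at hu
      unfold wtg
      have := hu.1.2
      rw [if_neg (by omega : ¬ (i u : ℕ) = M)]
    rw [f4, f5] at f1
    exact f1

end Pool.Agent.PK
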